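import Pool.Agent.Q157.SC.Stm

/-!
Lemma job SC-b5 (project SC of helper157).
-/

set_option autoImplicit false

namespace Pool.Agent.Q130.SC

open Equiv Pool.Agent.Q157.SC

variable {p : ℕ} [Fact p.Prime]

theorem aff_add {V : Type} [AddCommGroup V] (f : V → V) (hf : Aff f) (x y : V) :
    f (x + y) = f x + f y - f 0 := by
  have := hf x 0 y
  rw [sub_zero] at this
  rw [this]
  abel

theorem aff_form (f : ZMod p → ZMod p) (hf : Aff f) (x : ZMod p) : f x = f 0 + x * (f 1 - f 0) := by
  let g : ZMod p →+ ZMod p := AddMonoidHom.mk' (fun x => f x - f 0) (by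
    intro a b
    show f (a + b) - f 0 = (f a - f 0) + (f b - f 0)
    rw [aff_add f hf]
    abel)
  have h1 : g x = x * g 1 := by
    have hx : x = x.val • (1 : ZMod p) := by
      rw [nsmul_eq_mul, mul_one, ZMod.natCast_zmod_val]
    conv_lhs => rw [hx]
    rw [map_nsmul, nsmul_eq_mul, ZMod.natCast_zmod_val]
  have h2 : f x - f 0 = x * (f 1 - f 0) := h1
  rw [← h2]
  abel

theorem cast_ne {n : ℕ} (h0 : 0 < n) (h1 : n < p) : ((n : ℕ) : ZMod p) ≠ 0 := by
  intro h
  rw [ZMod.natCast_eq_zero_iff] at h
  exact absurd (Nat.le_of_dvd h0 h) (by omega)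

theorem closed_all (W : Set (ZMod p)) (hW : Closed W) (x y : ZMod p) (hxy : x ≠ y) (hx : x ∈ W)
    (hy : y ∈ W) (v : ZMod p) : v ∈ W := by
  have h : ∀ k : ℕ, x + k * (y - x) ∈ W := by
    intro k
    induction k with
    | zero => simpa using hx
    | succ k ih =>
      have := hW _ ih x hx y hy
      have e : x + ((k + 1 : ℕ) : ZMod p) * (y - x) = x + (k : ZMod p) * (y - x) - x + y := by
        push_cast
        ring
      rw [e]
      exact this
  have hne : y - x ≠ 0 := sub_ne_zero.2 (Ne.symm hxy)
  have h2 := h ((v - x) / (y - x)).val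
  rw [ZMod.natCast_zmod_val, div_mul_cancel₀ _ hne, add_sub_cancel] at h2
  exact h2

theorem tr_of (s : Finset (ZMod p)) (c : ZMod p → Bool) (h : ∀ x, c x = true ↔ x ∈ s) :
    tr c = s.card := by
  unfold tr
  rw [Nat.card_congr (Equiv.subtypeEquivRight h)]
  simp

/-- the class `{0}` -/
def d0 : ZMod p → Bool := fun x => decide (x = 0)

/-- the class `{0, 1}` -/
def d1 : ZMod p → Bool := fun x => decide (x = 0 ∨ x = 1)

/-- the class `{0, 1, -1}` -/
def d3 : ZMod p → Bool := fun x => decide (x = 0 ∨ x = 1 ∨ x = -1)

theorem d0_iff (x : ZMod p) : d0 x = true ↔ x = 0 := by simp [d0]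

theorem d1_iff (x : ZMod p) : d1 x = true ↔ x = 0 ∨ x = 1 := by simp [d1]

theorem d3_iff (x : ZMod p) : d3 x = true ↔ x = 0 ∨ x = 1 ∨ x = -1 := by simp [d3]

theorem goo0 : Goo (d0 (p := p)) := by
  intro f g hf hg _ _ h1 h2
  have f0 : f 0 = 0 := (d0_iff _).1 (by rw [h1]; simp [d0])
  have g0 : g 0 = 0 := (d0_iff _).1 (by rw [h2]; simp [d0])
  ext x
  have a1 := fun y => aff_form f hf y
  have a2 := fun y => aff_form g hg y
  rw [f0] at a1
  rw [g0] at a2
  rw [Perm.mul_apply, Perm.mul_apply, a1 (g x), a2 x, a2 (f x), a1 x]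
  ring

theorem fix_eq_one (f : Perm (ZMod p)) (hf : Aff f) (h0 : f 0 = 0) (h1 : f 1 = 1) : f = 1 := by
  ext x
  rw [aff_form f hf x, h0, h1, Perm.one_apply]
  ring

theorem rig1 (h1 : S_gen) : Rig (d1 (p := p)) := by
  intro f hf ho hc
  have hz : f 0 = 0 ∨ f 0 = 1 := (d1_iff _).1 (by rw [hc]; simp [d1])
  have hw : f 1 = 0 ∨ f 1 = 1 := (d1_iff _).1 (by rw [hc]; simp [d1])
  have hne : f 0 ≠ f 1 := fun h => zero_ne_one (f.injective h)
  have h00 : f 0 = 0 := by
    refine h1.1 (ZMod p) f {0} ho ?_ 0 rfl
    rintro x rfl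
    rcases hz with h | h
    · show f (f 0) = 0
      rw [h, h]
    · show f (f 0) = 0
      rw [h]
      rcases hw with h' | h'
      · exact h'
      · exact absurd (h.trans h'.symm) hne
  have h11 : f 1 = 1 := by
    rcases hw with h' | h'
    · exact absurd (h00.trans h'.symm) hne
    · exact h'
  exact fix_eq_one f hf h00 h11

theorem invol (h1 : S_gen) (f : Perm (ZMod p)) (ho : OP f) (h : ∀ x, f (f x) = x) : f = 1 := by
  ext x
  have := h1.1 (ZMod p) f {x} ho (by rintro y rfl; exact h y) x rfl
  rw [Perm.one_apply]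
  exact this

theorem rig3 (h1 : S_gen) (hp : 7 ≤ p) : Rig (d3 (p := p)) := by
  intro f hf ho hc
  have h2 : (2 : ZMod p) ≠ 0 := by exact_mod_cast cast_ne (p := p) (n := 2) (by norm_num) (by omega)
  have h3 : (3 : ZMod p) ≠ 0 := by exact_mod_cast cast_ne (p := p) (n := 3) (by norm_num) (by omega)
  have h4 : (4 : ZMod p) ≠ 0 := by exact_mod_cast cast_ne (p := p) (n := 4) (by norm_num) (by omega)
  have h01 : (0 : ZMod p) ≠ 1 := zero_ne_one
  have a := fun y => aff_form f hf y
  have e0 : f 0 = 0 ∨ f 0 = 1 ∨ f 0 = -1 := (d3_iff _).1 (by rw [hc]; simp [d3])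
  have e1 : f 1 = 0 ∨ f 1 = 1 ∨ f 1 = -1 := (d3_iff _).1 (by rw [hc]; simp [d3])
  have e2 : f (-1) = 0 ∨ f (-1) = 1 ∨ f (-1) = -1 := (d3_iff _).1 (by rw [hc]; simp [d3])
  have n01 : f 0 ≠ f 1 := fun h => h01 (f.injective h)
  have n02 : f 0 ≠ f (-1) := fun h => by
    have := f.injective h
    exact h01 (by linear_combination -this)
  have am := a (-1)
  rcases e0 with h | h | h
  · rcases e1 with k | k | k
    · exact absurd (h.trans k.symm) n01
    · exact fix_eq_one f hf h k
    · apply invol h1 f ho
      intro x
      rw [a (f x), a x, h, k]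
      ring
  · rcases e1 with k | k | k
    · have : f = 1 := by
        apply invol h1 f ho
        intro x
        rw [a (f x), a x, h, k]
        ring
      rw [this] at h
      exact absurd h h01
    · exact absurd (h.trans k.symm) n01
    · exfalso
      rw [h, k] at am
      rcases e2 with l | l | l
      · exact h3 (by linear_combination l - am)
      · exact h2 (by linear_combination l - am)
      · exact h4 (by linear_combination l - am)
  · rcases e2 with k | k | k
    · have : f = 1 := by
        apply invol h1 f ho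
        intro x
        rw [h, k] at am
        have hf1 : f 1 - f 0 = -1 := by rw [h]; linear_combination am
        rw [a (f x), a x, hf1, h]
        ring
      rw [this] at h
      exact absurd h (fun h => h01 (by
        have h' : (0 : ZMod p) = -1 := h
        linear_combination -h'))
    · exfalso
      rw [h, k] at am
      have hf1 : f 1 = -3 := by linear_combination am
      rcases e1 with l | l | l
      · exact h3 (by linear_combination hf1 - l)
      · exact h4 (by linear_combination hf1 - l)
      · exact h2 (by linear_combination hf1 - l)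
    · exact absurd (h.trans k.symm) n02

theorem two_left (S : Finset (ZMod p)) (hS : 3 ≤ S.card) (c : ZMod p → Bool)
    (hc : ∀ x ∈ S, c x = true) : Spn c := by
  intro x₀ W hW hy v
  have h : 1 < (S.erase x₀).card := by
    have := Finset.pred_card_le_card_erase (s := S) (a := x₀)
    omega
  obtain ⟨a, ha, b, hb, hab⟩ := Finset.one_lt_card.1 h
  rw [Finset.mem_erase] at ha hb
  exact closed_all W hW a b hab (hy a (hc a ha.2) ha.1) (hy b (hc b hb.2) hb.1) v

theorem compl_card (S : Finset (ZMod p)) : Sᶜ.card = p - S.card := by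
  rw [Finset.card_compl, ZMod.card]

theorem tr0 : tr (d0 (p := p)) = 1 := by
  rw [tr_of {0} d0 (fun x => by rw [d0_iff, Finset.mem_singleton]), Finset.card_singleton]

theorem tr1 : tr (d1 (p := p)) = 2 := by
  rw [tr_of {0, 1} d1 (fun x => by rw [d1_iff, Finset.mem_insert, Finset.mem_singleton]),
    Finset.card_pair zero_ne_one]

theorem b5 (h1 : S_gen) (h2 : S_bas) : S_b5 := by
  intro p hpf hp
  obtain ⟨-, -, -, hcomp, -, hsum⟩ := h2
  have s0 : tr (fun x => !(d0 (p := p) x)) = p - 1 := by
    have := hsum (ZMod p) d0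
    rw [tr0, Nat.card_zmod] at this
    omega
  have s1 : tr (fun x => !(d1 (p := p) x)) = p - 2 := by
    have := hsum (ZMod p) d1
    rw [tr1, Nat.card_zmod] at this
    omega
  have h01 : (0 : ZMod p) ≠ 1 := zero_ne_one
  constructor
  · refine ⟨![d0, d1, fun x => !(d0 x)], ?_, ?_⟩
    · intro i
      fin_cases i
      · exact goo0
      · exact (hcomp (ZMod p) d1).2.2 (rig1 h1)
      · exact (hcomp (ZMod p) d0).1 goo0
    · have t0 : tr ((![d0, d1, fun x => !(d0 x)] : Fin 3 → ZMod p → Bool) 0) = 1 := tr0
      have t1 : tr ((![d0, d1, fun x => !(d0 x)] : Fin 3 → ZMod p → Bool) 1) = 2 := tr1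
      have t2 : tr ((![d0, d1, fun x => !(d0 x)] : Fin 3 → ZMod p → Bool) 2) = p - 1 := s0
      intro i j hij
      fin_cases i <;> fin_cases j <;> first
        | rfl
        | (exfalso
           simp only [Fin.zero_eta, Fin.mk_one, Fin.reduceFinMk] at hij
           rw [t0, t1] at hij
           omega)
        | (exfalso
           simp only [Fin.zero_eta, Fin.mk_one, Fin.reduceFinMk] at hij
           rw [t0, t2] at hij
           omega)
        | (exfalso
           simp only [Fin.zero_eta, Fin.mk_one, Fin.reduceFinMk] at hij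
           rw [t1, t2] at hij
           omega)
  · have sp1 : Spn (fun x => !(d1 (p := p) x)) := by
      refine two_left ({0, 1}ᶜ) ?_ _ ?_
      · rw [compl_card, Finset.card_pair h01]
        omega
      · intro x hx
        rw [Finset.mem_compl, Finset.mem_insert, Finset.mem_singleton] at hx
        simp only [Bool.not_eq_true', d1, decide_eq_false_iff_not]
        exact hx
    have rg1 : Rig (fun x => !(d1 (p := p) x)) := (hcomp (ZMod p) d1).2.1 (rig1 h1)
    rcases Nat.lt_or_ge p 7 with h7 | h7
    · have h5 : p = 5 := by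
        have : p ≠ 6 := by
          rintro rfl
          exact absurd hpf.out (by norm_num)
        omega
      subst h5
      refine ⟨fun x => !(d1 x), fun x => !(d0 x), rg1, sp1, ?_, ?_, by rw [s0, s1]; norm_num⟩
      · intro f hf ho hc
        have f0 : f 0 = 0 := by
          have := hc 0
          simp only [d0, Bool.not_eq_eq_eq_not, Bool.not_not] at this
          simpa using this
        obtain ⟨m, hm, hfm⟩ := ho
        have hform : ∀ x, f x = x * f 1 := by
          intro x
          have := aff_form f hf x
          rw [f0] at this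
          rw [this]
          ring
        have hne : f 1 ≠ 0 := by
          intro h
          exact zero_ne_one (f.injective (f0.trans h.symm))
        have h4 : f ^ 4 = 1 := by
          ext x
          have hb : (f 1) ^ 4 = 1 := ZMod.pow_card_sub_one_eq_one hne
          rw [show (4 : ℕ) = 1 + 1 + 1 + 1 from rfl, pow_succ, pow_succ, pow_succ, pow_one]
          simp only [Perm.mul_apply, Perm.one_apply]
          rw [hform (f (f (f x))), hform (f (f x)), hform (f x), hform x]
          linear_combination x * hb
        have hcop : Nat.Coprime m 4 := by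
          have : Nat.Coprime m 2 := Nat.Coprime.symm ((Nat.coprime_two_left).2 hm)
          exact Nat.Coprime.pow_right 2 this
        have := orderOf_dvd_of_pow_eq_one hfm
        have h' := orderOf_dvd_of_pow_eq_one h4
        have h1' := Nat.dvd_gcd this h'
        rw [hcop] at h1'
        exact orderOf_eq_one_iff.1 (Nat.dvd_one.1 h1')
      · refine two_left ({0}ᶜ) ?_ _ ?_
        · rw [compl_card, Finset.card_singleton]
          norm_num
        · intro x hx
          rw [Finset.mem_compl, Finset.mem_singleton] at hx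
          simp only [Bool.not_eq_true', d0, decide_eq_false_iff_not]
          exact hx
    · have h2 : (2 : ZMod p) ≠ 0 := by
        exact_mod_cast cast_ne (p := p) (n := 2) (by norm_num) (by omega)
      have c3 : ({0, 1, -1} : Finset (ZMod p)).card = 3 := by
        rw [Finset.card_eq_three]
        refine ⟨0, 1, -1, h01, ?_, ?_, rfl⟩
        · intro h
          exact h01 (by linear_combination -h)
        · intro h
          exact h2 (by linear_combination h)
      have m3 : ∀ x : ZMod p, d3 x = true ↔ x ∈ ({0, 1, -1} : Finset (ZMod p)) := by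
        intro x
        rw [d3_iff]
        simp
      refine ⟨fun x => !(d1 x), d3, rg1, sp1, rig3 h1 h7, ?_, ?_⟩
      · exact two_left {0, 1, -1} c3.ge _ (fun x hx => (m3 x).2 hx)
      · rw [s1, tr_of {0, 1, -1} d3 m3, c3]
        omega

end Pool.Agent.Q130.SC
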