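import Pool.Agent.Q157.SC.Stm

/-!
Lemma job SC-c8 (project SC of helper157).
-/

set_option autoImplicit false

namespace Pool.Agent.Q130.SC8

open Equiv Pool.Agent.Q157.SC

/-- the four basis vectors -/
def a : V4 := ((1, 0), (0, 0))
def b : V4 := ((0, 1), (0, 0))
def c : V4 := ((0, 0), (1, 0))
def d : V4 := ((0, 0), (0, 1))

/-- the number of pairs `(y, z)` in the class with `x - y + z` in the class -/
def N (x : V4) : ℕ :=
  (Finset.univ.filter (fun w : V4 × V4 => c8 w.1 = true ∧ c8 w.2 = true ∧ c8 (x - w.1 + w.2) = true)).card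

/-- the number of pairs `(u, v)` in the class with `x - y + u = v` -/
def M (x y : V4) : ℕ :=
  (Finset.univ.filter (fun w : V4 × V4 => c8 w.1 = true ∧ c8 w.2 = true ∧ x - y + w.1 = w.2)).card

theorem N_inv (f : Perm V4) (hf : Aff f) (hc : ∀ x, c8 (f x) = c8 x) (x : V4) : N (f x) = N x := by
  symm
  refine Finset.card_bij (fun w _ => (f w.1, f w.2)) ?_ ?_ ?_
  · intro w hw
    simp only [Finset.mem_filter, Finset.mem_univ, true_and] at hw ⊢
    rw [hc, hc, ← hf, hc]
    exact hw
  · intro w _ w' _ h
    simp only [Prod.mk.injEq, EmbeddingLike.apply_eq_iff_eq] at h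
    exact Prod.ext h.1 h.2
  · intro w hw
    simp only [Finset.mem_filter, Finset.mem_univ, true_and] at hw
    refine ⟨(f.symm w.1, f.symm w.2), ?_, ?_⟩
    · simp only [Finset.mem_filter, Finset.mem_univ, true_and]
      rw [← hc (f.symm w.1), ← hc (f.symm w.2), ← hc (x - f.symm w.1 + f.symm w.2), hf]
      simpa using hw
    · simp

theorem M_inv (f : Perm V4) (hf : Aff f) (hc : ∀ x, c8 (f x) = c8 x) (x y : V4) :
    M (f x) (f y) = M x y := by
  symm
  refine Finset.card_bij (fun w _ => (f w.1, f w.2)) ?_ ?_ ?_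
  · intro w hw
    simp only [Finset.mem_filter, Finset.mem_univ, true_and] at hw ⊢
    rw [hc, hc, ← hf]
    exact ⟨hw.1, hw.2.1, by rw [hw.2.2]⟩
  · intro w _ w' _ h
    simp only [Prod.mk.injEq, EmbeddingLike.apply_eq_iff_eq] at h
    exact Prod.ext h.1 h.2
  · intro w hw
    simp only [Finset.mem_filter, Finset.mem_univ, true_and] at hw
    refine ⟨(f.symm w.1, f.symm w.2), ?_, ?_⟩
    · simp only [Finset.mem_filter, Finset.mem_univ, true_and]
      rw [← hc (f.symm w.1), ← hc (f.symm w.2)]
      refine ⟨by simpa using hw.1, by simpa using hw.2.1, ?_⟩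
      apply f.injective
      rw [hf]
      simpa using hw.2.2
    · simp

set_option maxRecDepth 100000 in
set_option synthInstance.maxSize 4000 in
theorem factN : (N c = 34 ∧ N (c + b) = 34 ∧ N d = 34 ∧ N (d + a) = 34 ∧ N 0 = 40) ∧
    ∀ x : V4, c8 x = true → (N x = 34 → x = c ∨ x = c + b ∨ x = d ∨ x = d + a) ∧
      (N x = 40 → x = 0 ∨ x = a ∨ x = b ∨ x = a + b) := by
  decide +kernel

set_option maxRecDepth 100000 in
set_option synthInstance.maxSize 4000 in
theorem factM : (M c (c + b) = 6) ∧ ∀ x y : V4, c8 x = true → c8 y = true → N x = 34 → N y = 34 → x ≠ y →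
    M x y = 6 → ((x = c ∧ y = c + b) ∨ (x = c + b ∧ y = c)) ∨ ((x = d ∧ y = d + a) ∨ (x = d + a ∧ y = d)) := by
  decide +kernel

set_option synthInstance.maxSize 4000 in
theorem fact3 : ∀ x₀ v : V4, ∃ x y z : V4, c8 x = true ∧ x ≠ x₀ ∧ c8 y = true ∧ y ≠ x₀ ∧ c8 z = true ∧ z ≠ x₀ ∧
    x - y + z = v := by
  decide +kernel

theorem fact8 : (Finset.univ.filter (fun x : V4 => c8 x = true)).card = 8 := by
  decide +kernel

theorem factS : c8 0 = true ∧ c8 a = true ∧ c8 b = true ∧ c8 (a + b) = true ∧ c8 c = true ∧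
    c8 (c + b) = true ∧ c8 d = true ∧ c8 (d + a) = true := by
  decide +kernel

set_option synthInstance.maxSize 4000 in
theorem factE : c ≠ c + b ∧ d ≠ d + a ∧ c ≠ d ∧ c ≠ d + a ∧ c + b ≠ d ∧ c + b ≠ d + a ∧
    0 - d + (d + a) = a ∧ 0 - c + (c + b) = b ∧ (∀ x y : V4, x - 0 + y = x + y) ∧
    ∀ x : V4, x + x = 0 := by
  decide +kernel

set_option synthInstance.maxSize 4000 in
theorem factC : ∀ x : V4, c8 x = true → x = 0 ∨ x = a ∨ x = b ∨ x = a + b ∨ x = c ∨ x = c + b ∨ x = d ∨
    x = d + a := by
  decide +kernel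

theorem rig8 (h1 : S_gen) : Rig c8 := by
  intro f hf ho hc
  obtain ⟨⟨Nc, Ncb, Nd, Nda, N0⟩, hN⟩ := factN
  obtain ⟨Mcb, hM⟩ := factM
  obtain ⟨s0, sa, sb, sab, sc, scb, sd, sda⟩ := factS
  obtain ⟨e1, e2, e3, e4, e5, e6, ea, eb, ez, edb⟩ := factE
  have p1 := hN (f c) (by rw [hc]; exact sc)
  have n1 : N (f c) = 34 := by rw [N_inv f hf hc, Nc]
  have n2 : N (f (c + b)) = 34 := by rw [N_inv f hf hc, Ncb]
  have n3 : N (f d) = 34 := by rw [N_inv f hf hc, Nd]
  have n4 : N (f (d + a)) = 34 := by rw [N_inv f hf hc, Nda]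
  have m12 : M (f c) (f (c + b)) = 6 := by rw [M_inv f hf hc, Mcb]
  have hp := hM (f c) (f (c + b)) (by rw [hc]; exact sc) (by rw [hc]; exact scb) n1 n2
    (fun h => e1 (f.injective h)) m12
  have q3 := (hN (f d) (by rw [hc]; exact sd)).1 n3
  have q4 := (hN (f (d + a)) (by rw [hc]; exact sda)).1 n4
  have i13 : f c ≠ f d := fun h => e3 (f.injective h)
  have i14 : f c ≠ f (d + a) := fun h => e4 (f.injective h)
  have i23 : f (c + b) ≠ f d := fun h => e5 (f.injective h)
  have i24 : f (c + b) ≠ f (d + a) := fun h => e6 (f.injective h)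
  have i34 : f d ≠ f (d + a) := fun h => e2 (f.injective h)
  have i12 : f c ≠ f (c + b) := fun h => e1 (f.injective h)
  -- `f` fixes `c`
  have fA : f c = c ∨ f c = c + b := by
    have := h1.1 V4 f {x | x = c ∨ x = c + b} ho ?_ c (Or.inl rfl)
    · exact this
    · rintro x (rfl | rfl)
      · show f (f c) = c ∨ f (f c) = c + b
        rcases hp with (⟨h, h'⟩ | ⟨h, h'⟩) | (⟨h, h'⟩ | ⟨h, h'⟩)
        · rw [h, h]; exact Or.inl rfl
        · rw [h, h']; exact Or.inl rfl
        · rw [h]
          rcases q3 with k | k | k | k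
          · exact Or.inl k
          · exact Or.inr k
          · exact absurd (h.trans k.symm) i13
          · exact absurd (h'.trans k.symm) i23
        · rw [h]
          rcases q4 with k | k | k | k
          · exact Or.inl k
          · exact Or.inr k
          · exact absurd (h'.trans k.symm) i24
          · exact absurd (h.trans k.symm) i14
      · show f (f (c + b)) = c ∨ f (f (c + b)) = c + b
        rcases hp with (⟨h, h'⟩ | ⟨h, h'⟩) | (⟨h, h'⟩ | ⟨h, h'⟩)
        · rw [h', h']; exact Or.inr rfl
        · rw [h', h]; exact Or.inr rfl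
        · rw [h']
          rcases q4 with k | k | k | k
          · exact Or.inl k
          · exact Or.inr k
          · exact absurd (h.trans k.symm) i14
          · exact absurd (h'.trans k.symm) i24
        · rw [h']
          rcases q3 with k | k | k | k
          · exact Or.inl k
          · exact Or.inr k
          · exact absurd (h'.trans k.symm) i23
          · exact absurd (h.trans k.symm) i13
  have fB : f (c + b) = c ∨ f (c + b) = c + b := by
    rcases hp with (⟨_, h'⟩ | ⟨_, h'⟩) | (⟨h, h'⟩ | ⟨h, h'⟩)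
    · exact Or.inr h'
    · exact Or.inl h'
    · exfalso
      rw [h] at fA
      rcases fA with k | k
      · exact e3 k.symm
      · exact e5 k.symm
    · exfalso
      rw [h] at fA
      rcases fA with k | k
      · exact e4 k.symm
      · exact e6 k.symm
  have fc : f c = c := by
    refine h1.1 V4 f {x | x = c} ho ?_ c rfl
    rintro x rfl
    show f (f c) = c
    rcases fA with k | k
    · rw [k, k]
    · rw [k]
      rcases fB with l | l
      · exact l
      · exact absurd (k.trans l.symm) i12
  have fcb : f (c + b) = c + b := by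
    rcases fB with l | l
    · exact absurd (fc.trans l.symm) i12
    · exact l
  have fD : f d = d ∨ f d = d + a := by
    rcases q3 with k | k | k | k
    · exact absurd (fc.trans k.symm) i13
    · exact absurd (fcb.trans k.symm) i23
    · exact Or.inl k
    · exact Or.inr k
  have fE : f (d + a) = d ∨ f (d + a) = d + a := by
    rcases q4 with k | k | k | k
    · exact absurd (fc.trans k.symm) i14
    · exact absurd (fcb.trans k.symm) i24
    · exact Or.inl k
    · exact Or.inr k
  have fd : f d = d := by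
    refine h1.1 V4 f {x | x = d} ho ?_ d rfl
    rintro x rfl
    show f (f d) = d
    rcases fD with k | k
    · rw [k, k]
    · rw [k]
      rcases fE with l | l
      · exact l
      · exact absurd (k.trans l.symm) i34
  have fda : f (d + a) = d + a := by
    rcases fE with l | l
    · exact absurd (fd.trans l.symm) i34
    · exact l
  -- the point `0`
  have ga : f a = f 0 + a := by
    have := hf 0 d (d + a)
    rw [ea, fd, fda] at this
    rw [this, ← ea]
    abel
  have gb : f b = f 0 + b := by
    have := hf 0 c (c + b)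
    rw [eb, fc, fcb] at this
    rw [this, ← eb]
    abel
  have gab : f (a + b) = f 0 + (a + b) := by
    have := hf a 0 b
    rw [ez, ga, gb] at this
    rw [this]
    abel
  have f0 : f 0 = 0 := by
    refine h1.1 V4 f {x | x = 0} ho ?_ 0 rfl
    rintro x rfl
    show f (f 0) = 0
    have h0 := (hN (f 0) (by rw [hc]; exact s0)).2 (by rw [N_inv f hf hc, N0])
    rcases h0 with k | k | k | k
    · rw [k, k]
    · rw [k, ga, k, edb]
    · rw [k, gb, k, edb]
    · rw [k, gab, k, edb]
  rw [f0, zero_add] at ga gb gab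
  have hS : ∀ x, c8 x = true → f x = x := by
    intro x hx
    rcases factC x hx with rfl | rfl | rfl | rfl | rfl | rfl | rfl | rfl
    · exact f0
    · exact ga
    · exact gb
    · exact gab
    · exact fc
    · exact fcb
    · exact fd
    · exact fda
  ext1 v
  rw [Perm.one_apply]
  obtain ⟨x, y, z, hx, -, hy, -, hz, -, hv⟩ := fact3 c v
  rw [← hv, hf, hS x hx, hS y hy, hS z hz]

theorem c8g (h1 : S_gen) (_ : S_bas) : S_c8 := by
  refine ⟨rig8 h1, ?_, ?_⟩
  · intro x₀ W hW h v
    obtain ⟨x, y, z, hx, hx', hy, hy', hz, hz', hv⟩ := fact3 x₀ v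
    rw [← hv]
    exact hW x (h x hx hx') y (h y hy hy') z (h z hz hz')
  · unfold tr
    rw [Nat.card_eq_fintype_card, Fintype.card_subtype]
    exact fact8

end Pool.Agent.Q130.SC8
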